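import Pool.Agent.X308.F.Main

/-!
# MP_e93a6a_ag: complements of elementary hypersurfaces in affine spaces over `ℤ`

`M` consists of the groups `H^i(X_et, ℤ^c(n))`, with the following known properties for `n < 0`
(`KnownProperties`): they vanish for `X = ∅`, they are invariant under isomorphisms of schemes, there
are the exact sequences of localization and of Mayer and Vietoris, and there is the homotopy
invariance `H^i(𝔸^1_X, ℤ^c(n)) = H^(i+2)(X, ℤ^c(n-1))`.

Theorem. (A) For every `n < 0` the following are equivalent:
(1) `H^i(X_et, ℤ^c(n))` is finitely generated for every arithmetic scheme `X` and every `i`;
(2) `H^i(U_et, ℤ^c(n))` is finitely generated for every `i` and every open subscheme `U` of an affine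
space `𝔸^m` over `ℤ` which is the complement of a finite union of hypersurfaces of the forms
`x_i = 1`, `x_i + x_j = x_k`, `x_i x_j = x_k`, where some of the indices may be equal.
(B) Q1, for all arithmetic schemes and all `n < 0`, is equivalent to (2) for `n = -1`.

So it suffices to prove Q1 for rational varieties over `ℤ` of a very simple kind, in weight `-1`: all
the hypersurfaces which occur are affine spaces of dimension `m - 1` over `ℤ`, or (`x_i x_j = x_i`)
unions of two of these, and only their relative position is complicated.

Proof. First, every finitely generated commutative ring `B` has a presentation
`ℤ[x_1, …, x_m]/(f_1, …, f_r)` in which every `f_j` is of one of the forms above; this is a version of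
a trick of Skolem: one takes a variable for each element of a suitable finite set of polynomials,
which is closed under the steps needed to build the relations of `B` from the variables. The sequence
of Mayer and Vietoris and (2) imply that the groups of the union of the open sets `f_j ≠ 0` are
finitely generated, since the intersections are again of the form in (2). By localization the groups
of `Spec B` are finitely generated. A general arithmetic scheme is a finite union of affine open
subschemes, whose intersections are affine, so that one can apply the sequence of Mayer and Vietoris
again. For (B) one replaces `X` by an affine space over `X`.
-/

set_option autoImplicit false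

universe v

namespace Pool.Agent.Results.MP_e93a6a_ag.ElementaryQuadrics

open Pool.Agent.X308.F

/-- For every `n < 0`, Q1 in weight `n` is equivalent to finite generation in weight `n` for
the complements of finite unions of hypersurfaces `x_i = 1`, `x_i + x_j = x_k`, `x_i x_j = x_k` in
affine spaces over `ℤ`; and Q1 is equivalent to finite generation in weight `-1` for the same
complements. -/
theorem result (M : CycleCohomology.{v}) (hM : KnownProperties M) :
    (∀ n : ℤ, n < 0 → (FiniteGenerationInWeight M n ↔ FiniteGenerationOfComplements M n)) ∧
    (FiniteGeneration M ↔ FiniteGenerationOfComplements M (-1)) :=
  ⟨fun _ hn => inWeight_iff hM hn, fg_iff hM⟩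

end Pool.Agent.Results.MP_e93a6a_ag.ElementaryQuadrics
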