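import Pool.Agent.X310.FgA

/-!
# Finite generation for schemes with a free action of a finite group

Let a finite group `G` act freely on an arithmetic scheme `Y`, so that `Y → Y/D` is a finite étale Galois covering with the
group `D`, for the subgroups `D` of `G`. For fixed `i` and `n` the groups `A = H^i(Y_et, ℤ^c(n))` and
`B D = H^i((Y/D)_et, ℤ^c(n))`, with the restrictions and transfers, are modelled by `T : TransferData G`: restriction after
transfer is the sum of the elements of `D`, transfer after restriction is the multiplication by the order of `D`, and the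
`n`-torsion subgroups are finite (they are quotients of étale cohomology groups with finite coefficients).

* Let the family `D i` of subgroups be rich: each irreducible `ℚ`-representation of `G` has a nonzero vector fixed by
  some `D i`. Then `A` is finitely generated if and only if the groups `B (D i)` are.
* If `G` has no irreducible representation in which only `1` has nonzero fixed vectors (if `G` is not a Frobenius
  complement; for example if `G` has a noncyclic subgroup of order `ℓ²` or `ℓℓ'`, `ℓ`, `ℓ'` primes), then the
  finite generation conjecture for `Y` is equivalent to the conjecture for the quotients `Y/⟨g⟩`, `g ≠ 1`.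
* Let `τ ∈ G`, `τ² = 1`. The conjecture for `Y` is equivalent to that for the quotients by `τ` and by the group
  `comms τ` generated by the `g τ g⁻¹ τ⁻¹`; and to that for `Y/⟨τ⟩` alone, if `τ ∈ comms τ`, for example if `G` is a
  nonabelian simple group.
-/

set_option autoImplicit false

namespace Pool.Agent.Results.MP_e93a6a_ag.FreeGroupActions

open Pool.Agent.X310.Rq Pool.Agent.X310.Fg

theorem result {G : Type} [Group G] [Finite G] (T : TransferData G) :
    (∀ (ι : Type) (D : ι → Subgroup G), IsRich D →
      (Module.Finite ℤ T.A ↔ ∀ i, Module.Finite ℤ (T.B (D i)))) ∧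
    (¬ HasFreeRep G →
      (Module.Finite ℤ T.A ↔ ∀ g : G, g ≠ 1 → Module.Finite ℤ (T.B (Subgroup.zpowers g)))) ∧
    (∀ τ : G, τ * τ = 1 →
      (Module.Finite ℤ T.A ↔
        Module.Finite ℤ (T.B (Subgroup.zpowers τ)) ∧ Module.Finite ℤ (T.B (comms τ))) ∧
      (τ ∈ comms τ → (Module.Finite ℤ T.A ↔ Module.Finite ℤ (T.B (Subgroup.zpowers τ))))) := by
  refine ⟨fun ι D hD => fg_rich T D hD, fun hG => ?_, fun τ hτ => ⟨?_, fun hm => ?_⟩⟩
  · rw [fg_rich T _ (rich_of_not_free hG)]
    exact ⟨fun h g hg => h ⟨g, hg⟩, fun h g => h g.1 g.2⟩
  · rw [fg_rich T _ (rich_pair hτ)]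
    refine ⟨fun h => ⟨h true, h false⟩, ?_⟩
    rintro ⟨h1, h2⟩ (_ | _)
    exacts [h2, h1]
  · rw [fg_rich T _ (rich_single hτ hm)]
    exact ⟨fun h => h (), fun h _ => h⟩

end Pool.Agent.Results.MP_e93a6a_ag.FreeGroupActions
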